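import Mathlib

/-! # [H74 PC ARI] arithmetic (self-contained)

PROOF. `choose_ratio`: for `r + s ≤ L`, `C(L-r,s)/C(L,s) = ∏_(j<r) (L-s-j)/(L-j) ≤ ((L-s)/L)^r`: induction on `r` with `C(L-r-1,s) (L-r) = C(L-r,s) (L-r-s)` and `(L-r-s) L ≤ (L-r)(L-s)`.
`caseA`: `C(r+R,R) = ∏_(j=1..R) (r+j)/j`; induction on `R ≥ 2` (up to `R ≤ r`): `C(r+2,2) > 4(r+1)` as `r+2 > 8`; `C(r+R+1,R+1) = C(r+R,R) (r+R+1)/(R+1) ≥ 2 C(r+R,R)` if `R+1 ≤ r`.
`caseB`: by `choose_ratio` with `L = r+R`: `C(R,s)/C(L,s) ≤ ((L-s)/L)^r ≤ ((L+r)/(2L))^r` (`2 s ≥ R`). If `12 r ≤ L` the base is `≤ 13/24` and `2 (r+1) (13/24)^r < 1` for `r ≥ 4`; otherwise `r > 200 - 1` and the base is `< 3/4` (`2 r < L`), `2 (r+1) (3/4)^r < 1`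
for `r ≥ 12`. `caseC`: `s = 9R/20` (floor): `L - s ≤ 0.551 L` for `L ≥ 2400`, `r ≤ 3`: `(0.551)^2 * 3 < 0.9109`, `(0.551)^3 * 4 < 0.67`; `R - 2 s ≥ R/10`, and the hypothesis `hc` (Chebyshev: `N` = number of elements, `B` = number with rank `< s`) gives `B ≤ 100 r N/R`,
so `B ≤ 0.0835 N` if `r = 2` and `B ≤ 0.126 N` if `r = 3` (`R ≥ 2397`). -/

set_option autoImplicit false

namespace Pool.Agent.H74.PC

theorem choose_ratio (L r s : ℕ) (h : r + s ≤ L) : (L - r).choose s * L ^ r ≤ L.choose s * (L - s) ^ r := by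
  induction r with
  | zero => simp
  | succ r ih =>
    have ih' := ih (by omega)
    obtain ⟨m, hm⟩ : ∃ m, L - r = m + 1 := ⟨L - r - 1, by omega⟩
    have hm' : L - (r + 1) = m := by omega
    rw [hm'] 
    have key : m.choose s * L ≤ (m + 1).choose s * (L - s) := by
      have h1 := Nat.choose_mul_succ_eq m s
      have h3 : (m + 1 - s) * L ≤ (L - s) * (m + 1) := by
        obtain ⟨t, ht⟩ : ∃ t, m + 1 = s + t := ⟨m + 1 - s, by omega⟩
        have hL : L = r + (s + t) := by omega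
        have e1 : m + 1 - s = t := by omega
        have e2 : L - s = r + t := by omega
        rw [e1, e2, ht, hL]
        nlinarith [Nat.zero_le (r * s)]
      have h2 : m.choose s * L * (m + 1) ≤ (m + 1).choose s * (L - s) * (m + 1) := by
        calc m.choose s * L * (m + 1) = (m.choose s * (m + 1)) * L := by ring
          _ = ((m + 1).choose s * (m + 1 - s)) * L := by rw [h1]
          _ = (m + 1).choose s * ((m + 1 - s) * L) := by ring
          _ ≤ (m + 1).choose s * ((L - s) * (m + 1)) := Nat.mul_le_mul_left _ h3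
          _ = (m + 1).choose s * (L - s) * (m + 1) := by ring
      exact Nat.le_of_mul_le_mul_right h2 (by omega)
    calc m.choose s * L ^ (r + 1) = (m.choose s * L) * L ^ r := by ring
      _ ≤ ((m + 1).choose s * (L - s)) * L ^ r := Nat.mul_le_mul_right _ key
      _ = ((m + 1).choose s * L ^ r) * (L - s) := by ring
      _ ≤ (L.choose s * (L - s) ^ r) * (L - s) := Nat.mul_le_mul_right _ (by rw [← hm]; exact ih')
      _ = L.choose s * (L - s) ^ (r + 1) := by ring

theorem caseA (r R : ℕ) (hR : 2 ≤ R) (hr : R ≤ r) (h7 : 7 ≤ r) : (r + 1) * 2 ^ R < (r + R).choose R := by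
  induction R, hR using Nat.le_induction with
  | base =>
    have h1 : (r + 2).choose 2 = (r + 2) * (r + 1) / 2 := by
      rw [Nat.choose_two_right]; rfl
    have h2 : (r + 1) * 2 ^ 2 * 2 < (r + 2) * (r + 1) := by nlinarith
    have h3 : 2 ∣ (r + 2) * (r + 1) := by
      rw [mul_comm]; exact (Nat.even_mul_succ_self (r + 1)).two_dvd
    rw [h1]
    omega
  | succ R hR ih =>
    have ih' := ih (by omega)
    have h1 : (r + R + 1).choose (R + 1) * (R + 1) = (r + R + 1) * (r + R).choose R := by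
      rw [Nat.add_one_mul_choose_eq]
    have h2 : 2 * (R + 1) ≤ r + R + 1 := by omega
    have h3 : 2 * (r + R).choose R * (R + 1) ≤ (r + R + 1).choose (R + 1) * (R + 1) := by
      rw [h1]; nlinarith [Nat.mul_le_mul_right ((r + R).choose R) h2]
    have h4 : 2 * (r + R).choose R ≤ (r + R + 1).choose (R + 1) := Nat.le_of_mul_le_mul_right h3 (by omega)
    have h5 : (r + 1) * 2 ^ (R + 1) = 2 * ((r + 1) * 2 ^ R) := by ring
    rw [h5]
    have h6 : r + (R + 1) = r + R + 1 := by omega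
    rw [h6]
    omega

private theorem pow13 (r : ℕ) (h : 4 ≤ r) : 2 * (r + 1) * 13 ^ r < 24 ^ r := by
  induction r, h using Nat.le_induction with
  | base => norm_num
  | succ r hr ih =>
    have h1 : 2 * (r + 1 + 1) * 13 ^ (r + 1) ≤ 24 * (2 * (r + 1) * 13 ^ r) := by
      have : 2 * (r + 1 + 1) * 13 ≤ 24 * (2 * (r + 1)) := by omega
      calc 2 * (r + 1 + 1) * 13 ^ (r + 1) = (2 * (r + 1 + 1) * 13) * 13 ^ r := by ring
        _ ≤ (24 * (2 * (r + 1))) * 13 ^ r := Nat.mul_le_mul_right _ this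
        _ = 24 * (2 * (r + 1) * 13 ^ r) := by ring
    calc 2 * (r + 1 + 1) * 13 ^ (r + 1) ≤ 24 * (2 * (r + 1) * 13 ^ r) := h1
      _ < 24 * 24 ^ r := by omega
      _ = 24 ^ (r + 1) := by ring

private theorem pow34 (r : ℕ) (h : 12 ≤ r) : 2 * (r + 1) * 3 ^ r < 4 ^ r := by
  induction r, h using Nat.le_induction with
  | base => norm_num
  | succ r hr ih =>
    have h1 : 2 * (r + 1 + 1) * 3 ^ (r + 1) ≤ 4 * (2 * (r + 1) * 3 ^ r) := by
      have : 2 * (r + 1 + 1) * 3 ≤ 4 * (2 * (r + 1)) := by omega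
      calc 2 * (r + 1 + 1) * 3 ^ (r + 1) = (2 * (r + 1 + 1) * 3) * 3 ^ r := by ring
        _ ≤ (4 * (2 * (r + 1))) * 3 ^ r := Nat.mul_le_mul_right _ this
        _ = 4 * (2 * (r + 1) * 3 ^ r) := by ring
    calc 2 * (r + 1 + 1) * 3 ^ (r + 1) ≤ 4 * (2 * (r + 1) * 3 ^ r) := h1
      _ < 4 * 4 ^ r := by omega
      _ = 4 ^ (r + 1) := by ring

/-- comparison step: `a (L-s)^r < b L^r` passes to the binomials -/
private theorem comp (a b L r R s : ℕ) (hL : L = r + R) (hs : s ≤ R) (h : a * (L - s) ^ r < b * L ^ r) :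
    a * R.choose s < b * (r + R).choose s := by
  have h1 := choose_ratio L r s (by omega)
  have e : L - r = R := by omega
  rw [e] at h1
  rw [← hL]
  have hpos : 0 < L.choose s := Nat.choose_pos (by omega)
  have hLr : 0 < L ^ r := by
    rcases Nat.eq_zero_or_pos (L ^ r) with h0 | h0
    · rw [h0] at h; omega
    · exact h0
  have h2 : a * R.choose s * L ^ r < b * L.choose s * L ^ r := by
    calc a * R.choose s * L ^ r = a * (R.choose s * L ^ r) := by ring
      _ ≤ a * (L.choose s * (L - s) ^ r) := Nat.mul_le_mul_left _ h1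
      _ = L.choose s * (a * (L - s) ^ r) := by ring
      _ < L.choose s * (b * L ^ r) := Nat.mul_lt_mul_of_pos_left h hpos
      _ = b * L.choose s * L ^ r := by ring
  exact Nat.lt_of_mul_lt_mul_right h2

theorem caseB (r R : ℕ) (h4 : 4 ≤ r) (hR : r < R) (hL : 2400 ≤ r + R) :
    2 * (r + 1) * R.choose ((R + 1) / 2) < (r + R).choose ((R + 1) / 2) := by
  set s := (R + 1) / 2 with hs
  obtain ⟨L, hLL⟩ : ∃ L, L = r + R := ⟨_, rfl⟩
  have hpos : 0 < L ^ r := pow_pos (by omega) _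
  have main : 2 * (r + 1) * (L - s) ^ r < 1 * L ^ r := by
    rcases Nat.lt_or_ge L (12 * r) with hc | hc
    · have h1 : 4 * (L - s) ≤ 3 * L := by omega
      have h2 : (4 * (L - s)) ^ r ≤ (3 * L) ^ r := Nat.pow_le_pow_left h1 r
      rw [mul_pow, mul_pow] at h2
      have h3 := pow34 r (by omega)
      have h5 : 4 ^ r * (2 * (r + 1) * (L - s) ^ r) < 4 ^ r * (1 * L ^ r) := by
        calc 4 ^ r * (2 * (r + 1) * (L - s) ^ r) = 2 * (r + 1) * (4 ^ r * (L - s) ^ r) := by ring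
          _ ≤ 2 * (r + 1) * (3 ^ r * L ^ r) := Nat.mul_le_mul_left _ h2
          _ = (2 * (r + 1) * 3 ^ r) * L ^ r := by ring
          _ < 4 ^ r * L ^ r := Nat.mul_lt_mul_of_pos_right h3 hpos
          _ = 4 ^ r * (1 * L ^ r) := by ring
      exact Nat.lt_of_mul_lt_mul_left h5
    · have h1 : 24 * (L - s) ≤ 13 * L := by omega
      have h2 : (24 * (L - s)) ^ r ≤ (13 * L) ^ r := Nat.pow_le_pow_left h1 r
      rw [mul_pow, mul_pow] at h2
      have h3 := pow13 r h4
      have h5 : 24 ^ r * (2 * (r + 1) * (L - s) ^ r) < 24 ^ r * (1 * L ^ r) := by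
        calc 24 ^ r * (2 * (r + 1) * (L - s) ^ r) = 2 * (r + 1) * (24 ^ r * (L - s) ^ r) := by ring
          _ ≤ 2 * (r + 1) * (13 ^ r * L ^ r) := Nat.mul_le_mul_left _ h2
          _ = (2 * (r + 1) * 13 ^ r) * L ^ r := by ring
          _ < 24 ^ r * L ^ r := Nat.mul_lt_mul_of_pos_right h3 hpos
          _ = 24 ^ r * (1 * L ^ r) := by ring
      exact Nat.lt_of_mul_lt_mul_left h5
  have := comp (2 * (r + 1)) 1 L r R s hLL (by omega) main
  rwa [one_mul] at this

/-- `N` elements, `B` of them of rank below `s = 9R/20`, `S2` the sum of the squares -/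
theorem caseC (r R N B S2 : ℕ) (h2 : 2 ≤ r) (h3 : r ≤ 3) (hL : 2400 ≤ r + R) (hN : 0 < N) (hB : B ≤ N) (hS : S2 ≤ r * R)
    (hc : B * (R - 2 * (9 * R / 20)) ^ 2 ≤ N * S2) :
    (r + 1) * N * R.choose (9 * R / 20) < (N - B) * (r + R).choose (9 * R / 20) := by
  set s := 9 * R / 20 with hs
  obtain ⟨L, hLL⟩ : ∃ L, L = r + R := ⟨_, rfl⟩
  have hRpos : 0 < R := by omega
  -- Chebyshev
  have hBR : B * R ≤ 100 * r * N := by
    have h10 : R ≤ 10 * (R - 2 * s) := by omega
    have h11 : R ^ 2 ≤ (10 * (R - 2 * s)) ^ 2 := Nat.pow_le_pow_left h10 2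
    have h12 : B * R * R ≤ 100 * r * N * R := by
      calc B * R * R = B * R ^ 2 := by ring
        _ ≤ B * (10 * (R - 2 * s)) ^ 2 := Nat.mul_le_mul_left _ h11
        _ = 100 * (B * (R - 2 * s) ^ 2) := by ring
        _ ≤ 100 * (N * S2) := Nat.mul_le_mul_left _ hc
        _ ≤ 100 * (N * (r * R)) := Nat.mul_le_mul_left _ (Nat.mul_le_mul_left _ hS)
        _ = 100 * r * N * R := by ring
    exact Nat.le_of_mul_le_mul_right h12 hRpos
  have h1000 : 1000 * (L - s) ≤ 551 * L := by omega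
  have main : (r + 1) * N * (L - s) ^ r < (N - B) * L ^ r := by
    have hcases : r = 2 ∨ r = 3 := by omega
    have hp : (1000 * (L - s)) ^ r ≤ (551 * L) ^ r := Nat.pow_le_pow_left h1000 r
    rw [mul_pow, mul_pow] at hp
    have hpos : 0 < L ^ r := pow_pos (by omega) _
    have hnum : (r + 1) * N * 551 ^ r < (N - B) * 1000 ^ r := by
      rcases hcases with h | h
      · subst h
        have : B * 2398 ≤ B * R := Nat.mul_le_mul_left _ (by omega)
        omega
      · subst h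
        have : B * 2397 ≤ B * R := Nat.mul_le_mul_left _ (by omega)
        omega
    have h5 : 1000 ^ r * ((r + 1) * N * (L - s) ^ r) < 1000 ^ r * ((N - B) * L ^ r) := by
      calc 1000 ^ r * ((r + 1) * N * (L - s) ^ r) = (r + 1) * N * (1000 ^ r * (L - s) ^ r) := by ring
        _ ≤ (r + 1) * N * (551 ^ r * L ^ r) := Nat.mul_le_mul_left _ hp
        _ = ((r + 1) * N * 551 ^ r) * L ^ r := by ring
        _ < ((N - B) * 1000 ^ r) * L ^ r := Nat.mul_lt_mul_of_pos_right hnum hpos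
        _ = 1000 ^ r * ((N - B) * L ^ r) := by ring
    exact Nat.lt_of_mul_lt_mul_left h5
  exact comp ((r + 1) * N) (N - B) L r R s hLL (by omega) main

end Pool.Agent.H74.PC
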