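import Pool.Agent.H74.PC.Def

/-! # [H74 PC CHE] rank distribution of a product of chains

PROOF. `half`: the reversal `x ↦ (i ↦ r i - x i)` (`Fin.rev`) maps `rk' i0` to `len' - rk' i0`, and every `x` has `rk' ≥ (len'+1)/2` or `len' - rk' ≥ (len'+1)/2` or (both). So `#univ ≤ 2 #{..}`.
`cheb`: `∑_x (∑_(i ≠ i0) (2 x_i - r_i))² ≤ |P| ∑_(i ≠ i0) r_i²`: the cross terms `∑_x (2 x_i - r_i)(2 x_j - r_j)`, `i ≠ j`, vanish (reverse the coordinate `i` only: `Function.update x i (Fin.rev (x i))` is an involution which changes the sign),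
and `(2 x_i - r_i)² ≤ r_i²`. Markov: every `x` with `rk' < s` has `(2 rk' - len')² ≥ (len' - 2 s)²` (`2 s ≤ len'`). `top`: only the `r i0 + 1` elements with `x i = r i` for all `i ≠ i0` have `rk' ≥ len'`.
`card_le`: `|P| = ∏ (r i + 1) ≤ (r i0 + 1) ∏_(i ≠ i0) 2^(r i)`. -/

set_option autoImplicit false

namespace Pool.Agent.H74.PC

open Finset

variable {n : ℕ} {r : Fin n → ℕ}

private theorem rk'_rev (i0 : Fin n) (x : Pc r) :
    rk' i0 (fun i => Fin.rev (x i) : Pc r) + rk' i0 x = len' r i0 := by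
  unfold rk' len'
  rw [← Finset.sum_add_distrib]
  refine Finset.sum_congr rfl fun i _ => ?_
  have := (x i).2
  simp only [Fin.val_rev]
  omega

theorem half (i0 : Fin n) : Fintype.card (Pc r) ≤ 2 * #{x : Pc r | (len' r i0 + 1) / 2 ≤ rk' i0 x} := by
  classical
  have h1 := Finset.card_filter_add_card_filter_not (s := (univ : Finset (Pc r)))
    (fun x => (len' r i0 + 1) / 2 ≤ rk' i0 x)
  rw [Finset.card_univ] at h1
  have h2 : #{x : Pc r | ¬ (len' r i0 + 1) / 2 ≤ rk' i0 x} ≤ #{x : Pc r | (len' r i0 + 1) / 2 ≤ rk' i0 x} := by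
    refine Finset.card_le_card_of_injOn (fun x => (fun i => Fin.rev (x i) : Pc r)) ?_ ?_
    · intro x hx
      have hx' : ¬ (len' r i0 + 1) / 2 ≤ rk' i0 x := by simpa using hx
      have h3 := rk'_rev i0 x
      have h4 : (len' r i0 + 1) / 2 ≤ rk' i0 (fun i => Fin.rev (x i) : Pc r) := by omega
      simpa using h4
    · intro x _ y _ hxy
      funext i
      exact Fin.rev_injective (congrFun hxy i)
  omega

private theorem cross {i j : Fin n} (hij : i ≠ j) :
    ∑ x : Pc r, (2 * ((x i : ℕ) : ℤ) - (r i : ℤ)) * (2 * ((x j : ℕ) : ℤ) - (r j : ℤ)) = 0 := by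
  classical
  have key : ∀ x : Pc r, (2 * ((x i : ℕ) : ℤ) - (r i : ℤ)) * (2 * ((x j : ℕ) : ℤ) - (r j : ℤ)) +
      (2 * (((Function.update x i (Fin.rev (x i)) : Pc r) i : ℕ) : ℤ) - (r i : ℤ)) *
        (2 * (((Function.update x i (Fin.rev (x i)) : Pc r) j : ℕ) : ℤ) - (r j : ℤ)) = 0 := by
    intro x
    have h1 : (Function.update x i (Fin.rev (x i)) : Pc r) i = Fin.rev (x i) := Function.update_self _ _ _
    have h2 : (Function.update x i (Fin.rev (x i)) : Pc r) j = x j := Function.update_of_ne hij.symm _ _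
    rw [h1, h2]
    have h3 : ((Fin.rev (x i) : ℕ) : ℤ) = (r i : ℤ) - ((x i : ℕ) : ℤ) := by
      have := (x i).2
      rw [Fin.val_rev]
      omega
    rw [h3]
    ring
  refine Finset.sum_involution (fun x _ => (Function.update x i (Fin.rev (x i)) : Pc r)) ?_ ?_ ?_ ?_
  · intro x _
    exact key x
  · intro x _ hne heq
    have h := key x
    rw [heq] at h
    omega
  · intro x _
    exact mem_univ _
  · intro x _
    simp

private theorem second (i0 : Fin n) :
    ∑ x : Pc r, (2 * (rk' i0 x : ℤ) - (len' r i0 : ℤ)) ^ 2 ≤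
      (Fintype.card (Pc r) : ℤ) * ∑ i ∈ univ.erase i0, (r i : ℤ) ^ 2 := by
  classical
  have h1 : ∀ x : Pc r, (2 * (rk' i0 x : ℤ) - (len' r i0 : ℤ)) =
      ∑ i ∈ univ.erase i0, (2 * ((x i : ℕ) : ℤ) - (r i : ℤ)) := by
    intro x
    unfold rk' len'
    push_cast
    rw [Finset.mul_sum, ← Finset.sum_sub_distrib]
  have h2 : ∑ x : Pc r, (2 * (rk' i0 x : ℤ) - (len' r i0 : ℤ)) ^ 2 =
      ∑ i ∈ univ.erase i0, ∑ j ∈ univ.erase i0, ∑ x : Pc r,
        (2 * ((x i : ℕ) : ℤ) - (r i : ℤ)) * (2 * ((x j : ℕ) : ℤ) - (r j : ℤ)) := by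
    calc ∑ x : Pc r, (2 * (rk' i0 x : ℤ) - (len' r i0 : ℤ)) ^ 2
        = ∑ x : Pc r, ∑ i ∈ univ.erase i0, ∑ j ∈ univ.erase i0,
          (2 * ((x i : ℕ) : ℤ) - (r i : ℤ)) * (2 * ((x j : ℕ) : ℤ) - (r j : ℤ)) := by
            refine Finset.sum_congr rfl fun x _ => ?_
            rw [h1 x, pow_two, Finset.sum_mul_sum]
      _ = ∑ i ∈ univ.erase i0, ∑ x : Pc r, ∑ j ∈ univ.erase i0,
          (2 * ((x i : ℕ) : ℤ) - (r i : ℤ)) * (2 * ((x j : ℕ) : ℤ) - (r j : ℤ)) := Finset.sum_comm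
      _ = _ := Finset.sum_congr rfl fun i _ => Finset.sum_comm
  rw [h2, Finset.mul_sum]
  refine Finset.sum_le_sum fun i hi => ?_
  rw [Finset.sum_eq_single_of_mem i hi (fun j _ hj => cross (Ne.symm hj))]
  calc ∑ x : Pc r, (2 * ((x i : ℕ) : ℤ) - (r i : ℤ)) * (2 * ((x i : ℕ) : ℤ) - (r i : ℤ))
      ≤ ∑ _x : Pc r, (r i : ℤ) ^ 2 := by
        refine Finset.sum_le_sum fun x _ => ?_
        have h3 : ((x i : ℕ) : ℤ) ≤ (r i : ℤ) := by
          have := (x i).2
          omega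
        have h4 : (0 : ℤ) ≤ ((x i : ℕ) : ℤ) := Int.natCast_nonneg _
        nlinarith [mul_nonneg h4 (sub_nonneg.2 h3)]
    _ = (Fintype.card (Pc r) : ℤ) * (r i : ℤ) ^ 2 := by
        rw [Finset.sum_const, Finset.card_univ, nsmul_eq_mul]

theorem cheb (i0 : Fin n) (s : ℕ) (hs : 2 * s ≤ len' r i0) :
    #{x : Pc r | rk' i0 x < s} * (len' r i0 - 2 * s) ^ 2 ≤ Fintype.card (Pc r) * ∑ i ∈ univ.erase i0, r i ^ 2 := by
  classical
  have h1 := second (r := r) i0
  have h2 : (#{x : Pc r | rk' i0 x < s} : ℤ) * ((len' r i0 : ℤ) - 2 * (s : ℤ)) ^ 2 ≤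
      ∑ x : Pc r, (2 * (rk' i0 x : ℤ) - (len' r i0 : ℤ)) ^ 2 := by
    calc (#{x : Pc r | rk' i0 x < s} : ℤ) * ((len' r i0 : ℤ) - 2 * (s : ℤ)) ^ 2
        = ∑ _x ∈ ({x : Pc r | rk' i0 x < s} : Finset (Pc r)), ((len' r i0 : ℤ) - 2 * (s : ℤ)) ^ 2 := by
          rw [Finset.sum_const, nsmul_eq_mul]
      _ ≤ ∑ x ∈ ({x : Pc r | rk' i0 x < s} : Finset (Pc r)), (2 * (rk' i0 x : ℤ) - (len' r i0 : ℤ)) ^ 2 := by
          refine Finset.sum_le_sum fun x hx => ?_
          have hx' : rk' i0 x < s := by simpa using hx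
          have h3 : (0 : ℤ) ≤ (len' r i0 : ℤ) - 2 * (s : ℤ) := by omega
          have h4 : (len' r i0 : ℤ) - 2 * (s : ℤ) ≤ (len' r i0 : ℤ) - 2 * (rk' i0 x : ℤ) := by omega
          have h5 := mul_self_le_mul_self h3 h4
          nlinarith [h5]
      _ ≤ ∑ x : Pc r, (2 * (rk' i0 x : ℤ) - (len' r i0 : ℤ)) ^ 2 :=
          Finset.sum_le_sum_of_subset_of_nonneg (Finset.subset_univ _) fun x _ _ => sq_nonneg _
  have h6 := h2.trans h1
  have h7 : (((len' r i0 - 2 * s : ℕ)) : ℤ) = (len' r i0 : ℤ) - 2 * (s : ℤ) := by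
    rw [Nat.cast_sub hs]
    push_cast
    rfl
  have h8 : ((#{x : Pc r | rk' i0 x < s} * (len' r i0 - 2 * s) ^ 2 : ℕ) : ℤ) ≤
      ((Fintype.card (Pc r) * ∑ i ∈ univ.erase i0, r i ^ 2 : ℕ) : ℤ) := by
    rw [Nat.cast_mul, Nat.cast_pow, h7, Nat.cast_mul, Nat.cast_sum]
    simp only [Nat.cast_pow]
    exact h6
  exact_mod_cast h8

theorem top (i0 : Fin n) : #{x : Pc r | len' r i0 ≤ rk' i0 x} = r i0 + 1 := by
  classical
  have hinj : Function.Injective (fun t : Fin (r i0 + 1) => (Function.update (fun i => Fin.last (r i)) i0 t : Pc r)) := by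
    intro t u htu
    have h := congrFun htu i0
    simpa using h
  have hset : ({x : Pc r | len' r i0 ≤ rk' i0 x} : Finset (Pc r)) =
      univ.image (fun t : Fin (r i0 + 1) => (Function.update (fun i => Fin.last (r i)) i0 t : Pc r)) := by
    ext x
    simp only [mem_filter, mem_univ, true_and, mem_image]
    constructor
    · intro hx
      refine ⟨x i0, ?_⟩
      have hle : ∀ i ∈ univ.erase i0, (x i : ℕ) ≤ r i := fun i _ => Nat.lt_succ_iff.1 (x i).2
      have heq : ∑ i ∈ univ.erase i0, (x i : ℕ) = ∑ i ∈ univ.erase i0, r i :=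
        le_antisymm (Finset.sum_le_sum hle) hx
      have hall := (Finset.sum_eq_sum_iff_of_le hle).1 heq
      funext i
      by_cases hi : i = i0
      · subst hi
        simp
      · rw [Function.update_of_ne hi]
        apply Fin.ext
        rw [Fin.val_last]
        exact (hall i (mem_erase.2 ⟨hi, mem_univ _⟩)).symm
    · rintro ⟨t, rfl⟩
      unfold rk' len'
      refine Finset.sum_le_sum fun i hi => ?_
      rw [Function.update_of_ne (mem_erase.1 hi).1, Fin.val_last]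
  rw [hset, Finset.card_image_of_injective _ hinj, Finset.card_univ, Fintype.card_fin]

theorem card_le (i0 : Fin n) : Fintype.card (Pc r) ≤ (r i0 + 1) * 2 ^ len' r i0 := by
  classical
  have h1 : Fintype.card (Pc r) = ∏ i, (r i + 1) := by
    rw [Fintype.card_pi]
    exact Finset.prod_congr rfl fun i _ => Fintype.card_fin _
  rw [h1, ← Finset.mul_prod_erase univ (fun i => r i + 1) (mem_univ i0)]
  refine Nat.mul_le_mul_left _ ?_
  unfold len'
  rw [← Finset.prod_pow_eq_pow_sum]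
  exact Finset.prod_le_prod' fun i _ => Nat.lt_two_pow_self

end Pool.Agent.H74.PC
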