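import Pool.Agent.H74.PC.Def

/-! # [H74 PC COV] covers and chain counts in a product of chains

PROOF. `x ⋖ y` iff `y = inc x i` for some `i` with `x i < r i` (`Pi.covBy_iff` if Mathlib has it, or: `x < y` gives `i` with `x i < y i`, so `x < inc x i ≤ y`; and nothing is strictly between `x` and `inc x i` because the rank `rk` is strictly
monotone). `i` is unique. So the sum over the upper covers is the sum over `i` with `x i < r i`; the same downwards (`dec`). `graded`: `rk (inc x i) = rk x + 1`; minimal = `0`, maximal = all `x i = r i`.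
`up_eq`: `up_unique` of `H37/Star/Power.lean` with `g x = 1/∏ (r i - x i)!`: `g (inc x i) = (r i - x i) g x` and `∑_(x i < r i) (r i - x i) = L - rk x`. `dn_eq`: `dn_unique` with `g x = 1/∏ (x i)!`. `up_inc`: from `up_eq`. -/

set_option autoImplicit false

namespace Pool.Agent.H74.PC

open Finset Pool.Agent.H37.Star

variable {n : ℕ} {r : Fin n → ℕ}

theorem inc_same (x : Pc r) (i : Fin n) (hi : (x i : ℕ) < r i) : ((inc x i) i : ℕ) = (x i : ℕ) + 1 := by
  unfold inc
  rw [Function.update_self]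
  show min ((x i : ℕ) + 1) (r i) = (x i : ℕ) + 1
  omega

theorem inc_ne (x : Pc r) {i j : Fin n} (h : j ≠ i) : (inc x i) j = x j := by
  unfold inc
  rw [Function.update_of_ne h]

theorem dec_same (x : Pc r) (i : Fin n) : ((dec x i) i : ℕ) = (x i : ℕ) - 1 := by
  unfold dec
  rw [Function.update_self]

theorem dec_ne (x : Pc r) {i j : Fin n} (h : j ≠ i) : (dec x i) j = x j := by
  unfold dec
  rw [Function.update_of_ne h]

theorem cov_above (x y : Pc r) : x ⋖ y ↔ ∃ i, (x i : ℕ) < r i ∧ inc x i = y := by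
  rw [Pi.covBy_iff]
  constructor
  · rintro ⟨i, hi, hne⟩
    have h1 : (x i : ℕ) + 1 = (y i : ℕ) := by
      have := Fin.coe_covBy_iff.2 hi
      exact Nat.covBy_iff_add_one_eq.1 this
    have h2 : (y i : ℕ) < r i + 1 := (y i).2
    refine ⟨i, by omega, ?_⟩
    funext j
    by_cases hj : j = i
    · subst hj
      apply Fin.ext
      rw [inc_same x j (by omega)]
      exact h1
    · rw [inc_ne x hj]
      exact hne j hj
  · rintro ⟨i, hi, rfl⟩
    refine ⟨i, ?_, fun j hj => (inc_ne x hj).symm⟩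
    rw [← Fin.coe_covBy_iff, Nat.covBy_iff_add_one_eq, inc_same x i hi]

theorem cov_below (x y : Pc r) : y ⋖ x ↔ ∃ i, 0 < (x i : ℕ) ∧ dec x i = y := by
  rw [Pi.covBy_iff]
  constructor
  · rintro ⟨i, hi, hne⟩
    have h1 : (y i : ℕ) + 1 = (x i : ℕ) := by
      have := Fin.coe_covBy_iff.2 hi
      exact Nat.covBy_iff_add_one_eq.1 this
    refine ⟨i, by omega, ?_⟩
    funext j
    by_cases hj : j = i
    · subst hj
      apply Fin.ext
      rw [dec_same x j]
      omega
    · rw [dec_ne x hj]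
      exact (hne j hj).symm
  · rintro ⟨i, hi, rfl⟩
    refine ⟨i, ?_, fun j hj => dec_ne x hj⟩
    rw [← Fin.coe_covBy_iff, Nat.covBy_iff_add_one_eq, dec_same x i]
    omega

open Classical in
theorem sum_above (x : Pc r) (f : Pc r → ℝ) :
    ∑ y ∈ univ.filter (fun y : Pc r => x ⋖ y), f y = ∑ i ∈ univ.filter (fun i => (x i : ℕ) < r i), f (inc x i) := by
  symm
  refine Finset.sum_bij (fun i _ => inc x i) ?_ ?_ ?_ ?_
  · intro i hi
    exact Finset.mem_filter.2 ⟨Finset.mem_univ _, (cov_above x _).2 ⟨i, (Finset.mem_filter.1 hi).2, rfl⟩⟩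
  · intro i hi j hj hij
    by_contra hne
    have h1 := (Finset.mem_filter.1 hi).2
    have h2 := congrFun hij i
    have h3 : (((inc x i) i : Fin (r i + 1)) : ℕ) = (((inc x j) i : Fin (r i + 1)) : ℕ) := by rw [h2]
    rw [inc_same x i h1, inc_ne x hne] at h3
    omega
  · intro y hy
    obtain ⟨i, hi, rfl⟩ := (cov_above x y).1 (Finset.mem_filter.1 hy).2
    exact ⟨i, Finset.mem_filter.2 ⟨Finset.mem_univ _, hi⟩, rfl⟩
  · intro i _
    rfl

open Classical in
theorem sum_below (x : Pc r) (f : Pc r → ℝ) :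
    ∑ y ∈ univ.filter (fun y : Pc r => y ⋖ x), f y = ∑ i ∈ univ.filter (fun i => 0 < (x i : ℕ)), f (dec x i) := by
  symm
  refine Finset.sum_bij (fun i _ => dec x i) ?_ ?_ ?_ ?_
  · intro i hi
    exact Finset.mem_filter.2 ⟨Finset.mem_univ _, (cov_below x _).2 ⟨i, (Finset.mem_filter.1 hi).2, rfl⟩⟩
  · intro i hi j hj hij
    by_contra hne
    have h1 := (Finset.mem_filter.1 hi).2
    have h2 := congrFun hij i
    have h3 : (((dec x i) i : Fin (r i + 1)) : ℕ) = (((dec x j) i : Fin (r i + 1)) : ℕ) := by rw [h2]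
    rw [dec_same x i, dec_ne x hne] at h3
    omega
  · intro y hy
    obtain ⟨i, hi, rfl⟩ := (cov_below x y).1 (Finset.mem_filter.1 hy).2
    exact ⟨i, Finset.mem_filter.2 ⟨Finset.mem_univ _, hi⟩, rfl⟩
  · intro i _
    rfl

theorem rk_inc (x : Pc r) (i : Fin n) (hi : (x i : ℕ) < r i) : rk (inc x i) = rk x + 1 := by
  unfold rk
  rw [← Finset.add_sum_erase _ _ (Finset.mem_univ i),
    ← Finset.add_sum_erase Finset.univ (fun j => (x j : ℕ)) (Finset.mem_univ i), inc_same x i hi]
  have h : ∑ j ∈ univ.erase i, ((inc x i) j : ℕ) = ∑ j ∈ univ.erase i, (x j : ℕ) :=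
    Finset.sum_congr rfl fun j hj => by rw [inc_ne x (Finset.ne_of_mem_erase hj)]
  rw [h]
  ring

theorem min_zero {x : Pc r} (hx : IsMin x) (i : Fin n) : (x i : ℕ) = 0 := by
  have h0 : (fun j => (0 : Fin (r j + 1)) : Pc r) ≤ x := fun j => Fin.zero_le _
  have h1 := hx h0 i
  have h2 : (x i : ℕ) ≤ ((0 : Fin (r i + 1)) : ℕ) := h1
  simpa using h2

theorem max_last {x : Pc r} (hx : IsMax x) (i : Fin n) : (x i : ℕ) = r i := by
  have h0 : x ≤ (fun j => Fin.last (r j) : Pc r) := fun j => Fin.le_last _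
  have h1 := hx h0 i
  have h2 : ((Fin.last (r i) : Fin (r i + 1)) : ℕ) ≤ (x i : ℕ) := h1
  rw [Fin.val_last] at h2
  have h3 : (x i : ℕ) < r i + 1 := (x i).2
  omega

theorem graded (r : Fin n → ℕ) : IsGradedBy (Pc r) rk (len r) := by
  refine ⟨?_, ?_, ?_⟩
  · intro x hx
    exact Finset.sum_eq_zero fun i _ => min_zero hx i
  · intro x hx
    exact Finset.sum_congr rfl fun i _ => max_last hx i
  · intro x y hxy
    obtain ⟨i, hi, rfl⟩ := (cov_above x y).1 hxy
    exact rk_inc x i hi

/-- the reciprocal of the product of the factorials of the colengths -/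
noncomputable def gu (x : Pc r) : ℝ := 1 / ∏ i, ((r i - (x i : ℕ)).factorial : ℝ)

/-- the reciprocal of the product of the factorials -/
noncomputable def gd (x : Pc r) : ℝ := 1 / ∏ i, (((x i : ℕ)).factorial : ℝ)

theorem gu_inc (x : Pc r) (i : Fin n) (hi : (x i : ℕ) < r i) :
    gu (inc x i) = ((r i - (x i : ℕ) : ℕ) : ℝ) * gu x := by
  unfold gu
  rw [← Finset.mul_prod_erase _ _ (Finset.mem_univ i),
    ← Finset.mul_prod_erase Finset.univ (fun j => ((r j - (x j : ℕ)).factorial : ℝ)) (Finset.mem_univ i),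
    inc_same x i hi]
  have h : ∏ j ∈ univ.erase i, ((r j - ((inc x i) j : ℕ)).factorial : ℝ) =
      ∏ j ∈ univ.erase i, ((r j - (x j : ℕ)).factorial : ℝ) :=
    Finset.prod_congr rfl fun j hj => by rw [inc_ne x (Finset.ne_of_mem_erase hj)]
  rw [h]
  have h1 : ((r i - (x i : ℕ)).factorial : ℝ) =
      ((r i - (x i : ℕ) : ℕ) : ℝ) * ((r i - ((x i : ℕ) + 1)).factorial : ℝ) := by
    rw [← Nat.mul_factorial_pred (n := r i - (x i : ℕ)) (by omega)]
    push_cast
    rw [show r i - (x i : ℕ) - 1 = r i - ((x i : ℕ) + 1) by omega]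
  rw [h1]
  have h2 : ((r i - (x i : ℕ) : ℕ) : ℝ) ≠ 0 := by
    have : r i - (x i : ℕ) ≠ 0 := by omega
    exact_mod_cast this
  have h3 : ((r i - ((x i : ℕ) + 1)).factorial : ℝ) ≠ 0 := by exact_mod_cast (Nat.factorial_pos _).ne'
  have h4 : ∏ j ∈ univ.erase i, ((r j - (x j : ℕ)).factorial : ℝ) ≠ 0 :=
    Finset.prod_ne_zero_iff.2 fun j _ => by exact_mod_cast (Nat.factorial_pos _).ne'
  field_simp

theorem gd_dec (x : Pc r) (i : Fin n) (hi : 0 < (x i : ℕ)) :
    gd (dec x i) = (((x i : ℕ)) : ℝ) * gd x := by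
  unfold gd
  rw [← Finset.mul_prod_erase _ _ (Finset.mem_univ i),
    ← Finset.mul_prod_erase Finset.univ (fun j => (((x j : ℕ)).factorial : ℝ)) (Finset.mem_univ i),
    dec_same x i]
  have h : ∏ j ∈ univ.erase i, ((((dec x i) j : ℕ)).factorial : ℝ) =
      ∏ j ∈ univ.erase i, (((x j : ℕ)).factorial : ℝ) :=
    Finset.prod_congr rfl fun j hj => by rw [dec_ne x (Finset.ne_of_mem_erase hj)]
  rw [h]
  have h1 : (((x i : ℕ)).factorial : ℝ) = ((x i : ℕ) : ℝ) * (((x i : ℕ) - 1).factorial : ℝ) := by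
    rw [← Nat.mul_factorial_pred (n := (x i : ℕ)) (by omega)]
    push_cast
    ring
  rw [h1]
  have h2 : ((x i : ℕ) : ℝ) ≠ 0 := by
    have : (x i : ℕ) ≠ 0 := by omega
    exact_mod_cast this
  have h3 : ((((x i : ℕ) - 1)).factorial : ℝ) ≠ 0 := by exact_mod_cast (Nat.factorial_pos _).ne'
  have h4 : ∏ j ∈ univ.erase i, (((x j : ℕ)).factorial : ℝ) ≠ 0 :=
    Finset.prod_ne_zero_iff.2 fun j _ => by exact_mod_cast (Nat.factorial_pos _).ne'
  field_simp

theorem up_gu (x : Pc r) : (up x : ℝ) = (len r - rk x).factorial * gu x := by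
  classical
  refine up_unique (graded r) gu ?_ ?_ x
  · intro y hy
    unfold gu
    have : ∏ i, ((r i - (y i : ℕ)).factorial : ℝ) = 1 :=
      Finset.prod_eq_one fun i _ => by rw [max_last hy i, Nat.sub_self]; simp
    rw [this, div_one]
  · intro y _
    have h := sum_above y gu
    rw [Finset.sum_congr rfl fun i hi => gu_inc y i (Finset.mem_filter.1 hi).2] at h
    have h2 : ∑ i ∈ univ.filter (fun i => (y i : ℕ) < r i), ((r i - (y i : ℕ) : ℕ) : ℝ) * gu y =
        ((len r - rk y : ℕ) : ℝ) * gu y := by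
      rw [← Finset.sum_mul]
      congr 1
      rw [Finset.sum_filter_of_ne]
      · rw [← Nat.cast_sum]
        congr 1
        unfold len rk
        rw [Finset.sum_tsub_distrib]
        intro i _
        have := (y i).2
        omega
      · intro i _ hne
        by_contra hcon
        apply hne
        rw [show r i - (y i : ℕ) = 0 by omega]
        simp
    rw [h2] at h
    exact h.symm

theorem dn_gd (x : Pc r) : (dn x : ℝ) = (rk x).factorial * gd x := by
  classical
  refine dn_unique (graded r) gd ?_ ?_ x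
  · intro y hy
    unfold gd
    have : ∏ i, (((y i : ℕ)).factorial : ℝ) = 1 :=
      Finset.prod_eq_one fun i _ => by rw [min_zero hy i]; simp
    rw [this, div_one]
  · intro y _
    have h := sum_below y gd
    rw [Finset.sum_congr rfl fun i hi => gd_dec y i (Finset.mem_filter.1 hi).2] at h
    have h2 : ∑ i ∈ univ.filter (fun i => 0 < (y i : ℕ)), ((y i : ℕ) : ℝ) * gd y =
        ((rk y : ℕ) : ℝ) * gd y := by
      rw [← Finset.sum_mul]
      congr 1
      rw [Finset.sum_filter_of_ne]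
      · rw [← Nat.cast_sum]
        rfl
      · intro i _ hne
        by_contra hcon
        apply hne
        rw [show (y i : ℕ) = 0 by omega]
        simp
    rw [h2] at h
    exact h.symm

theorem up_eq (x : Pc r) : (up x : ℝ) = (len r - rk x).factorial / ∏ i, ((r i - (x i : ℕ)).factorial : ℝ) := by
  rw [up_gu x]
  unfold gu
  rw [mul_one_div]

theorem dn_eq (x : Pc r) : (dn x : ℝ) = (rk x).factorial / ∏ i, (((x i : ℕ)).factorial : ℝ) := by
  rw [dn_gd x]
  unfold gd
  rw [mul_one_div]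

theorem up_inc (x : Pc r) (i : Fin n) (hi : (x i : ℕ) < r i) :
    ((len r - rk x : ℕ) : ℝ) * up (inc x i) = ((r i - (x i : ℕ) : ℕ) : ℝ) * up x := by
  have hlt : rk x < len r := by
    unfold rk len
    exact Finset.sum_lt_sum (fun j _ => by have := (x j).2; omega) ⟨i, Finset.mem_univ i, hi⟩
  rw [up_gu, up_gu, gu_inc x i hi, rk_inc x i hi]
  have h1 : ((len r - rk x).factorial : ℝ) =
      ((len r - rk x : ℕ) : ℝ) * ((len r - (rk x + 1)).factorial : ℝ) := by
    rw [← Nat.mul_factorial_pred (n := len r - rk x) (by omega)]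
    push_cast
    rw [show len r - rk x - 1 = len r - (rk x + 1) by omega]
  rw [h1]
  ring

end Pool.Agent.H74.PC
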