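import Pool.Agent.H37.Star.Main2

/-! # [H74 PC DEF] PRODUCTS OF CHAINS AND PROPERTY (∗) (MP_ef39db_co), helper74

`Pc r = Π i, {0,...,r i}`, rank `rk x = ∑ x i`, `L = ∑ r i` (rank of the poset). Theorem: if `L ≥ 2400` and all `r i ≥ 1` then `(∗)` holds iff all `r i = 1` (Boolean), or `n = 1` (chain), or `n = 2` and some `r i = 1`. -/

set_option autoImplicit false

namespace Pool.Agent.H74.PC

open Finset

variable {n : ℕ}

/-- product of chains -/
abbrev Pc (r : Fin n → ℕ) : Type := (i : Fin n) → Fin (r i + 1)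

/-- rank -/
def rk {r : Fin n → ℕ} (x : Pc r) : ℕ := ∑ i, (x i : ℕ)

/-- rank without the coordinate `i0` -/
def rk' {r : Fin n → ℕ} (i0 : Fin n) (x : Pc r) : ℕ := ∑ i ∈ univ.erase i0, (x i : ℕ)

/-- the rank of the poset -/
def len (r : Fin n → ℕ) : ℕ := ∑ i, r i

/-- the rank without the coordinate `i0` -/
def len' (r : Fin n → ℕ) (i0 : Fin n) : ℕ := ∑ i ∈ univ.erase i0, r i

/-- raise the coordinate `i` by one (nothing happens at the top) -/
def inc {r : Fin n → ℕ} (x : Pc r) (i : Fin n) : Pc r :=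
  Function.update x i ⟨min ((x i : ℕ) + 1) (r i), by omega⟩

/-- lower the coordinate `i` by one (nothing happens at the bottom) -/
def dec {r : Fin n → ℕ} (x : Pc r) (i : Fin n) : Pc r :=
  Function.update x i ⟨(x i : ℕ) - 1, by omega⟩

theorem len_eq (r : Fin n → ℕ) (i0 : Fin n) : len r = r i0 + len' r i0 := by
  unfold len len'
  rw [← Finset.add_sum_erase _ _ (Finset.mem_univ i0)]

end Pool.Agent.H74.PC
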