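import Pool.Agent.H74.PC.Cov

/-! # [H74 PC HIT] chains through the set `A = {x : x i0 = 0, rk x ≥ s}`

PROOF. `level`: `S s = ∑ dn x * up x` over the `x` with `rk x = s`, `x i0 = 0`. `S 0 = numMaxChains` (only `⊥`, `dn ⊥ = 1`; or `numMaxChains_level` with `k = 0`). `(L-s) S (s+1) = (L-s-r i0) S s` for `s < L`:
`S (s+1) = ∑_(rk x' = s+1, x' i0 = 0) ∑_(x ⋖ x') dn x up x'` (`dn_rec`; `x' ≠ ⊥`), exchange: `= ∑_(rk x = s, x i0 = 0) dn x ∑_(x ⋖ x', x' i0 = 0) up x'` (lower covers of `x'` have `x i0 = 0`; by `sum_above` the covers `x' = inc x i`, `i ≠ i0`,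
`x i < r i`), and by `up_inc` the inner sum times `L - s` is `∑_(i ≠ i0) (r i - x i) up x = (L - s - r i0) up x`. So by induction on `s ≤ len'`: `S s * C(L,s) = M * C(len',s)` (`Nat.choose_succ_right_eq`).
`hit`: a maximal chain which meets `A` in `x` contains an element of rank `s` (`IsGradedBy.meets`), it is comparable with `x`, so `≤ x`, so it is one of the elements of the sum: `numHit A ≤ ∑ numHit {z}` (union bound; `numHit_singleton`).
`star_ineq`: `(∗)` for `A`: `|A|/|P| ≤ numHit A/M`; and `#{x | s ≤ rk' i0 x} = (r i0 + 1) |A|` (the coordinate `i0` is free: bijection with `A × Fin (r i0 + 1)`, `x ↦ (update x i0 0, x i0)`; `rk x = rk' i0 x` if `x i0 = 0`). -/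

set_option autoImplicit false

namespace Pool.Agent.H74.PC

open Finset Pool.Agent.H37.Star

variable {n : ℕ} {r : Fin n → ℕ}

/-- the test set -/
def Aset (r : Fin n → ℕ) (i0 : Fin n) (s : ℕ) : Set (Pc r) := {x | (x i0 : ℕ) = 0 ∧ s ≤ rk x}

open Classical in
private theorem inner (i0 : Fin n) (x : Pc r) (hx0 : (x i0 : ℕ) = 0) :
    ((len r - rk x : ℕ) : ℝ) * ∑ y ∈ univ.filter (fun y : Pc r => x ⋖ y), (if (y i0 : ℕ) = 0 then (up y : ℝ) else 0) =
      ((len' r i0 - rk x : ℕ) : ℝ) * up x := by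
  rw [sum_above x (fun y => if (y i0 : ℕ) = 0 then (up y : ℝ) else 0), Finset.mul_sum]
  have h1 : ∀ i ∈ univ.filter (fun i => (x i : ℕ) < r i),
      ((len r - rk x : ℕ) : ℝ) * (if ((inc x i) i0 : ℕ) = 0 then (up (inc x i) : ℝ) else 0) =
      if i = i0 then 0 else ((r i - (x i : ℕ) : ℕ) : ℝ) * up x := by
    intro i hi
    have hi1 := (Finset.mem_filter.1 hi).2
    by_cases h : i = i0
    · subst h
      rw [if_pos rfl, if_neg, mul_zero]
      rw [inc_same x i hi1]
      omega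
    · rw [if_neg h, if_pos, up_inc x i hi1]
      rw [inc_ne x (Ne.symm h)]
      exact hx0
  rw [Finset.sum_congr rfl h1, Finset.sum_filter]
  have h2 : ∀ i ∈ (univ : Finset (Fin n)),
      (if (x i : ℕ) < r i then (if i = i0 then (0 : ℝ) else ((r i - (x i : ℕ) : ℕ) : ℝ) * up x) else 0) =
      (if i = i0 then (0 : ℝ) else ((r i - (x i : ℕ) : ℕ) : ℝ) * up x) := by
    intro i _
    by_cases h : (x i : ℕ) < r i
    · rw [if_pos h]
    · rw [if_neg h]
      split_ifs
      · rfl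
      · rw [show r i - (x i : ℕ) = 0 by omega]
        simp
  rw [Finset.sum_congr rfl h2, ← Finset.add_sum_erase _ _ (Finset.mem_univ i0), if_pos rfl, zero_add]
  have h3 : ∀ i ∈ univ.erase i0, (if i = i0 then (0 : ℝ) else ((r i - (x i : ℕ) : ℕ) : ℝ) * up x) =
      ((r i - (x i : ℕ) : ℕ) : ℝ) * up x := fun i hi => by rw [if_neg (Finset.ne_of_mem_erase hi)]
  rw [Finset.sum_congr rfl h3, ← Finset.sum_mul, ← Nat.cast_sum]
  congr 2
  have h4 : rk x = ∑ i ∈ univ.erase i0, (x i : ℕ) := by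
    unfold rk
    rw [← Finset.add_sum_erase _ _ (Finset.mem_univ i0), hx0, zero_add]
  rw [h4]
  unfold len'
  rw [Finset.sum_tsub_distrib]
  intro i _
  have := (x i).2
  omega

open Classical in
private theorem step (i0 : Fin n) (s : ℕ) :
    ((len r - s : ℕ) : ℝ) * (∑ x ∈ univ.filter (fun x : Pc r => rk x = s + 1 ∧ (x i0 : ℕ) = 0), ((dn x * up x : ℕ) : ℝ)) =
      ((len' r i0 - s : ℕ) : ℝ) * ∑ x ∈ univ.filter (fun x : Pc r => rk x = s ∧ (x i0 : ℕ) = 0), ((dn x * up x : ℕ) : ℝ) := by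
  have h1 : ∑ y ∈ univ.filter (fun y : Pc r => rk y = s + 1 ∧ (y i0 : ℕ) = 0), ((dn y * up y : ℕ) : ℝ) =
      ∑ y : Pc r, ∑ x : Pc r, if x ⋖ y ∧ rk y = s + 1 ∧ (y i0 : ℕ) = 0 then (dn x : ℝ) * up y else 0 := by
    rw [Finset.sum_filter]
    refine Finset.sum_congr rfl fun y _ => ?_
    by_cases hy : rk y = s + 1 ∧ (y i0 : ℕ) = 0
    · rw [if_pos hy]
      have hmin : ¬ IsMin y := by
        intro h
        have := (graded r).min y h
        omega
      rw [dn_rec hmin, Nat.cast_mul, Nat.cast_sum, Finset.sum_mul, Finset.sum_filter]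
      refine Finset.sum_congr rfl fun x _ => ?_
      by_cases hx : x ⋖ y
      · rw [if_pos hx, if_pos ⟨hx, hy⟩]
      · rw [if_neg hx, if_neg fun h => hx h.1]
    · rw [if_neg hy]
      symm
      exact Finset.sum_eq_zero fun x _ => if_neg fun h => hy h.2
  rw [h1, Finset.sum_comm, Finset.mul_sum, Finset.sum_filter, Finset.mul_sum]
  refine Finset.sum_congr rfl fun x _ => ?_
  by_cases hx : rk x = s ∧ (x i0 : ℕ) = 0
  · rw [if_pos hx]
    have h2 := inner (r := r) i0 x hx.2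
    rw [hx.1, Finset.sum_filter] at h2
    have h3 : ∑ y : Pc r, (if x ⋖ y ∧ rk y = s + 1 ∧ (y i0 : ℕ) = 0 then (dn x : ℝ) * up y else 0) =
        (dn x : ℝ) * ∑ y : Pc r, (if x ⋖ y then (if (y i0 : ℕ) = 0 then (up y : ℝ) else 0) else 0) := by
      rw [Finset.mul_sum]
      refine Finset.sum_congr rfl fun y _ => ?_
      by_cases hxy : x ⋖ y
      · have h4 := (graded r).covBy x y hxy
        by_cases hy0 : (y i0 : ℕ) = 0
        · rw [if_pos ⟨hxy, by omega, hy0⟩, if_pos hxy, if_pos hy0]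
        · rw [if_neg fun h => hy0 h.2.2, if_pos hxy, if_neg hy0, mul_zero]
      · rw [if_neg fun h => hxy h.1, if_neg hxy, mul_zero]
    rw [h3, mul_left_comm, h2]
    push_cast
    ring
  · rw [if_neg hx, mul_zero]
    have h3 : ∑ y : Pc r, (if x ⋖ y ∧ rk y = s + 1 ∧ (y i0 : ℕ) = 0 then (dn x : ℝ) * up y else 0) = 0 := by
      refine Finset.sum_eq_zero fun y _ => if_neg ?_
      rintro ⟨hxy, h4, h5⟩
      apply hx
      have h6 := (graded r).covBy x y hxy
      have h7 : (x i0 : ℕ) ≤ (y i0 : ℕ) := hxy.le i0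
      exact ⟨by omega, by omega⟩
    rw [h3, mul_zero]

open Classical in
theorem level (i0 : Fin n) (s : ℕ) (hs : s ≤ len' r i0) :
    (∑ x ∈ univ.filter (fun x : Pc r => rk x = s ∧ (x i0 : ℕ) = 0), ((dn x * up x : ℕ) : ℝ)) * (len r).choose s =
      (numMaxChains (Pc r) : ℝ) * (len' r i0).choose s := by
  induction s with
  | zero =>
    rw [Nat.choose_zero_right, Nat.choose_zero_right, numMaxChains_level (graded r) (k := 0) (Nat.zero_le _)]
    push_cast
    rw [mul_one, mul_one]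
    refine Finset.sum_congr ?_ fun _ _ => rfl
    ext x
    rw [Finset.mem_filter, Finset.mem_filter]
    refine ⟨fun h => ⟨h.1, h.2.1⟩, fun h => ⟨h.1, h.2, ?_⟩⟩
    have h1 := h.2
    unfold rk at h1
    exact (Finset.sum_eq_zero_iff.1 h1) i0 (Finset.mem_univ _)
  | succ s ih =>
    have h1 := ih (by omega)
    have h2 := step (r := r) i0 s
    have h3 : (((s + 1 : ℕ)) : ℝ) * ((len r).choose (s + 1) : ℝ) = ((len r - s : ℕ) : ℝ) * ((len r).choose s : ℝ) := by
      have := Nat.choose_succ_right_eq (len r) s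
      have h4 : (s + 1) * (len r).choose (s + 1) = (len r - s) * (len r).choose s := by
        rw [mul_comm, this, mul_comm]
      exact_mod_cast h4
    have h5 : (((s + 1 : ℕ)) : ℝ) * ((len' r i0).choose (s + 1) : ℝ) = ((len' r i0 - s : ℕ) : ℝ) * ((len' r i0).choose s : ℝ) := by
      have := Nat.choose_succ_right_eq (len' r i0) s
      have h4 : (s + 1) * (len' r i0).choose (s + 1) = (len' r i0 - s) * (len' r i0).choose s := by
        rw [mul_comm, this, mul_comm]
      exact_mod_cast h4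
    have h6 : (((s + 1 : ℕ)) : ℝ) ≠ 0 := by positivity
    refine mul_left_cancel₀ h6 ?_
    obtain ⟨A, hA⟩ : ∃ A : ℝ, A = ∑ x ∈ univ.filter (fun x : Pc r => rk x = s + 1 ∧ (x i0 : ℕ) = 0), ((dn x * up x : ℕ) : ℝ) := ⟨_, rfl⟩
    obtain ⟨B, hB⟩ : ∃ B : ℝ, B = ∑ x ∈ univ.filter (fun x : Pc r => rk x = s ∧ (x i0 : ℕ) = 0), ((dn x * up x : ℕ) : ℝ) := ⟨_, rfl⟩
    rw [← hA]
    rw [← hA, ← hB] at h2
    rw [← hB] at h1
    calc (((s + 1 : ℕ)) : ℝ) * (A * ((len r).choose (s + 1) : ℝ)) = A * ((((s + 1 : ℕ)) : ℝ) * ((len r).choose (s + 1) : ℝ)) := by ring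
      _ = (((len r - s : ℕ) : ℝ) * A) * ((len r).choose s : ℝ) := by rw [h3]; ring
      _ = ((len' r i0 - s : ℕ) : ℝ) * (B * ((len r).choose s : ℝ)) := by rw [h2]; ring
      _ = (numMaxChains (Pc r) : ℝ) * (((len' r i0 - s : ℕ) : ℝ) * ((len' r i0).choose s : ℝ)) := by rw [h1]; ring
      _ = (numMaxChains (Pc r) : ℝ) * ((((s + 1 : ℕ)) : ℝ) * ((len' r i0).choose (s + 1) : ℝ)) := by rw [h5]
      _ = _ := by ring

theorem hit (i0 : Fin n) (s : ℕ) (hs : s ≤ len' r i0) :
    (numHit (Pc r) (Aset r i0 s) : ℝ) * (len r).choose s ≤ (numMaxChains (Pc r) : ℝ) * (len' r i0).choose s := by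
  classical
  rw [← level i0 s hs]
  refine mul_le_mul_of_nonneg_right ?_ (Nat.cast_nonneg _)
  have h1 := level_card (graded r) (k := s) (univ.filter (fun x : Pc r => rk x = s ∧ (x i0 : ℕ) = 0))
    (fun x hx => (Finset.mem_filter.1 hx).2.1)
  rw [← Nat.cast_sum, ← h1]
  refine Nat.cast_le.2 (Set.ncard_le_ncard ?_ (Set.toFinite _))
  rintro C ⟨hC, x, hxC, hxA⟩
  refine ⟨hC, ?_⟩
  have hlen : s ≤ len r := by
    have := len_eq r i0
    omega
  obtain ⟨y, hyC, hy⟩ := (graded r).meets hC hlen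
  have h2 : y ≤ x := by
    rcases chain_le_or hC.1 hyC hxC with h | h
    · exact h
    · rcases h.lt_or_eq with h3 | h3
      · have h4 := (graded r).lt h3
        have h5 := hxA.2
        omega
      · exact h3.symm.le
  have h3 : (y i0 : ℕ) ≤ (x i0 : ℕ) := h2 i0
  have h4 := hxA.1
  exact ⟨y, Finset.mem_filter.2 ⟨Finset.mem_univ _, hy, by omega⟩, hyC⟩

theorem star_ineq (h : PropStar (Pc r)) (i0 : Fin n) (s : ℕ) (hs : s ≤ len' r i0) :
    #{x : Pc r | s ≤ rk' i0 x} * (len r).choose s ≤ (r i0 + 1) * Fintype.card (Pc r) * (len' r i0).choose s := by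
  classical
  have h1 := h (Aset r i0 s)
  have hN : (0 : ℝ) < (Nat.card (Pc r) : ℝ) := by
    rw [Nat.card_eq_fintype_card]
    exact_mod_cast Fintype.card_pos
  have hM : (0 : ℝ) < (numMaxChains (Pc r) : ℝ) := by
    have h2 := numMaxChains_level (graded r) (k := 0) (Nat.zero_le _)
    rw [h2]
    have h3 : 0 < ∑ x ∈ univ.filter (fun x : Pc r => rk x = 0), dn x * up x := by
      refine Finset.sum_pos (fun x _ => Nat.mul_pos (dn_pos x) (up_pos x)) ⟨fun i => 0, ?_⟩
      rw [Finset.mem_filter]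
      refine ⟨Finset.mem_univ _, ?_⟩
      unfold rk
      exact Finset.sum_eq_zero fun i _ => rfl
    exact_mod_cast h3
  rw [div_le_div_iff₀ hN hM] at h1
  have h2 := hit (r := r) i0 s hs
  have hC : (0 : ℝ) ≤ ((len r).choose s : ℝ) := Nat.cast_nonneg _
  -- `|A| C(L,s) ≤ N C(L',s)`
  have h3 : ((Aset r i0 s).ncard : ℝ) * ((len r).choose s : ℝ) ≤ (Nat.card (Pc r) : ℝ) * ((len' r i0).choose s : ℝ) := by
    have h4 : (((Aset r i0 s).ncard : ℝ) * ((len r).choose s : ℝ)) * (numMaxChains (Pc r) : ℝ) ≤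
        ((Nat.card (Pc r) : ℝ) * ((len' r i0).choose s : ℝ)) * (numMaxChains (Pc r) : ℝ) := by
      calc (((Aset r i0 s).ncard : ℝ) * ((len r).choose s : ℝ)) * (numMaxChains (Pc r) : ℝ)
          = (((Aset r i0 s).ncard : ℝ) * (numMaxChains (Pc r) : ℝ)) * ((len r).choose s : ℝ) := by ring
        _ ≤ ((numHit (Pc r) (Aset r i0 s) : ℝ) * (Nat.card (Pc r) : ℝ)) * ((len r).choose s : ℝ) :=
          mul_le_mul_of_nonneg_right h1 hC
        _ = (Nat.card (Pc r) : ℝ) * ((numHit (Pc r) (Aset r i0 s) : ℝ) * ((len r).choose s : ℝ)) := by ring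
        _ ≤ (Nat.card (Pc r) : ℝ) * ((numMaxChains (Pc r) : ℝ) * ((len' r i0).choose s : ℝ)) :=
          mul_le_mul_of_nonneg_left h2 hN.le
        _ = _ := by ring
    exact le_of_mul_le_mul_right h4 hM
  have h4 : (Aset r i0 s).ncard * (len r).choose s ≤ Fintype.card (Pc r) * (len' r i0).choose s := by
    rw [Nat.card_eq_fintype_card] at h3
    exact_mod_cast h3
  -- the free coordinate
  have h5 : #{x : Pc r | s ≤ rk' i0 x} ≤ (Aset r i0 s).ncard * (r i0 + 1) := by
    have h6 : (Aset r i0 s).ncard = (univ.filter (fun x : Pc r => (x i0 : ℕ) = 0 ∧ s ≤ rk x)).card := by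
      rw [← Set.ncard_coe_finset]
      congr 1
      ext x
      simp [Aset]
    have h7 : (Aset r i0 s).ncard * (r i0 + 1) =
        ((univ.filter (fun x : Pc r => (x i0 : ℕ) = 0 ∧ s ≤ rk x)) ×ˢ (univ : Finset (Fin (r i0 + 1)))).card := by
      rw [Finset.card_product, h6, Finset.card_univ, Fintype.card_fin]
    rw [h7]
    refine Finset.card_le_card_of_injOn (fun x => (Function.update x i0 0, x i0)) ?_ ?_
    · intro x hx
      have hx1 : s ≤ rk' i0 x := by simpa using hx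
      rw [Finset.mem_coe, Finset.mem_product, Finset.mem_filter]
      refine ⟨⟨Finset.mem_univ _, ?_, ?_⟩, Finset.mem_univ _⟩
      · show ((Function.update x i0 (0 : Fin (r i0 + 1)) i0 : Fin (r i0 + 1)) : ℕ) = 0
        rw [Function.update_self]
        rfl
      · show s ≤ rk (Function.update x i0 (0 : Fin (r i0 + 1)))
        unfold rk
        rw [← Finset.add_sum_erase _ _ (Finset.mem_univ i0)]
        refine hx1.trans ?_
        unfold rk'
        refine le_trans (le_of_eq ?_) (Nat.le_add_left _ _)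
        refine Finset.sum_congr rfl fun i hi => ?_
        rw [Function.update_of_ne (Finset.ne_of_mem_erase hi)]
    · intro x _ y _ hxy
      have h8 := congrArg Prod.fst hxy
      have h9 := congrArg Prod.snd hxy
      funext j
      by_cases hj : j = i0
      · subst hj
        exact h9
      · have h10 := congrFun h8 j
        simp only [Function.update_of_ne hj] at h10
        exact h10
  calc #{x : Pc r | s ≤ rk' i0 x} * (len r).choose s ≤ ((Aset r i0 s).ncard * (r i0 + 1)) * (len r).choose s :=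
        Nat.mul_le_mul_right _ h5
    _ = (r i0 + 1) * ((Aset r i0 s).ncard * (len r).choose s) := by ring
    _ ≤ (r i0 + 1) * (Fintype.card (Pc r) * (len' r i0).choose s) := Nat.mul_le_mul_left _ h4
    _ = _ := by ring

end Pool.Agent.H74.PC
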