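import Pool.Agent.H74.PC.Cov

/-! # [H74 PC PS1] Boolean lattices and chains have (∗)

PROOF. `star_of_uniform` (H37/Star/Main.lean) with `graded`, `up_eq`, `dn_eq`: if all `r i = 1` then `dn x * up x = (rk x)! (L - rk x)!` (`x i ≤ 1`, all factorials in the denominators are 1);
if `n = 1` then `dn x = up x = 1`. -/

set_option autoImplicit false

namespace Pool.Agent.H74.PC

open Finset Pool.Agent.H37.Star

theorem star_boolean {n : ℕ} {r : Fin n → ℕ} (h : ∀ i, r i = 1) : PropStar (Pc r) := by
  classical
  refine star_of_uniform (graded r) (fun k => k.factorial * (len r - k).factorial) ?_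
  intro x
  have hx : ∀ i, (x i : ℕ) ≤ 1 := fun i => by
    have h1 := (x i).isLt
    have h2 := h i
    omega
  have hu : (up x : ℝ) = ((len r - rk x).factorial : ℝ) := by
    rw [up_eq, Finset.prod_eq_one, div_one]
    intro i _
    have h1 : r i - (x i : ℕ) ≤ 1 := by
      have h2 := h i
      omega
    rw [Nat.factorial_eq_one.2 h1]
    norm_num
  have hd : (dn x : ℝ) = ((rk x).factorial : ℝ) := by
    rw [dn_eq, Finset.prod_eq_one, div_one]
    intro i _
    rw [Nat.factorial_eq_one.2 (hx i)]
    norm_num
  have hu' : up x = (len r - rk x).factorial := by exact_mod_cast hu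
  have hd' : dn x = (rk x).factorial := by exact_mod_cast hd
  rw [hu', hd']

theorem star_chain {r : Fin 1 → ℕ} : PropStar (Pc r) := by
  classical
  refine star_of_uniform (graded r) (fun _ => 1) ?_
  intro x
  have hL : len r = r 0 := by simp [len]
  have hk : rk x = (x 0 : ℕ) := by simp [rk]
  have hu : (up x : ℝ) = 1 := by
    rw [up_eq, hL, hk, Fin.prod_univ_one, div_self]
    exact_mod_cast Nat.factorial_ne_zero _
  have hd : (dn x : ℝ) = 1 := by
    rw [dn_eq, hk, Fin.prod_univ_one, div_self]
    exact_mod_cast Nat.factorial_ne_zero _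
  have hu' : up x = 1 := by exact_mod_cast hu
  have hd' : dn x = 1 := by exact_mod_cast hd
  rw [hu', hd']

end Pool.Agent.H74.PC
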