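import Pool.Agent.H74.PC.Cov
import Pool.Agent.H21.Hold.Main

/-! # [H74 PC PS2] the product of a two element chain and a chain has (∗)

PROOF. Let `i` be the coordinate with `r i = 1` and `j` the other one, `m = r j`; write `(a, t)` for the element with `x i = a ∈ {0,1}`, `x j = t ≤ m`. `Pool.Agent.H21.Hold.star_iff` with
`F (0,t) (0,t) = 1`, `F (0,t) y = 0` for the other `y`, `F (1,t) (a,s) = 1/2` for `s ≤ t` (`a = 0, 1`), `0` for `s > t`. Row sums: `dn (0,t) = 1`, `dn (1,t) = t + 1` (`dn_eq`; `Pool.Agent.H21.Hold.numMaxChains_Iic`: `numMaxChains (Set.Iic x) = dn x`). The lower covers of `(1,t)` are `(0,t)` and (if `t ≥ 1`) `(1,t-1)`, of `(0,t)` only `(0,t-1)` (`sum_below`):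
for `y = (a,s) ≠ (1,t)`: if `s < t` then `F (1,t-1) y = 1/2`; if `s = t`, so `a = 0`, `F (0,t) (0,t) = 1`. The only maximal element is `(1,m)`: `F (1,m) y = 1/2 = M/|P|`, `M = dn (1,m) = m + 1`, `|P| = 2(m+1)`.
(Or: `|A| ≤ 2 numHit A` because the `m+1` maximal chains `C_t = {(0,s) : s ≤ t} ∪ {(1,s) : s ≥ t}` are different and `C_t` contains `(0,t)` and `(1,t)`.) -/

set_option autoImplicit false

namespace Pool.Agent.H74.PC

open Finset Pool.Agent.H37.Star

private theorem two_aux {r : Fin 2 → ℕ} (i j : Fin 2) (hij : i ≠ j) (hi : r i = 1) : PropStar (Pc r) := by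
  classical
  have huniv : (univ : Finset (Fin 2)) = {i, j} := by
    ext k
    simp only [mem_univ, mem_insert, mem_singleton, true_iff]
    omega
  have hij' : i ∉ ({j} : Finset (Fin 2)) := by
    rw [mem_singleton]
    exact hij
  have hdn : ∀ x : Pc r, (dn x : ℝ) = ((x i : ℕ) + (x j : ℕ)).factorial / (((x i : ℕ)).factorial * ((x j : ℕ)).factorial : ℝ) := by
    intro x
    rw [dn_eq, rk, huniv, sum_insert hij', sum_singleton, prod_insert hij', prod_singleton]
  have hdn0 : ∀ x : Pc r, (x i : ℕ) = 0 → (dn x : ℝ) = 1 := by
    intro x hx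
    rw [hdn, hx, zero_add, Nat.factorial_zero, Nat.cast_one, one_mul, div_self]
    exact_mod_cast (Nat.factorial_pos _).ne'
  have hdn1 : ∀ x : Pc r, (x i : ℕ) = 1 → (dn x : ℝ) = (x j : ℕ) + 1 := by
    intro x hx
    rw [hdn, hx, add_comm 1 (x j : ℕ), Nat.factorial_succ, Nat.factorial_one, Nat.cast_one, one_mul, Nat.cast_mul,
      mul_div_assoc, div_self, mul_one, Nat.cast_add, Nat.cast_one]
    exact_mod_cast (Nat.factorial_pos _).ne'
  have h01 : ∀ x : Pc r, (x i : ℕ) = 0 ∨ (x i : ℕ) = 1 := by
    intro x
    have := (x i).2
    omega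
  let F : Pc r → Pc r → ℝ := fun x y =>
    if (x i : ℕ) = 0 then (if y = x then 1 else 0) else (if (y j : ℕ) ≤ x j then 1 / 2 else 0)
  have hF0 : ∀ x y, (x i : ℕ) = 0 → F x y = if y = x then 1 else 0 := fun x y h => if_pos h
  have hF1 : ∀ x y, (x i : ℕ) ≠ 0 → F x y = if (y j : ℕ) ≤ x j then 1 / 2 else 0 := fun x y h => if_neg h
  have hFn : ∀ x y, 0 ≤ F x y := by
    intro x y
    by_cases h : (x i : ℕ) = 0
    · rw [hF0 x y h]
      split_ifs <;> norm_num
    · rw [hF1 x y h]
      split_ifs <;> norm_num
  rw [Pool.Agent.H21.Hold.star_iff]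
  refine ⟨F, hFn, fun x => ?_, fun x y hyx => ?_, fun y => ?_⟩
  · rw [Pool.Agent.H21.Hold.numMaxChains_Iic]
    rcases h01 x with hx | hx
    · rw [hdn0 x hx, sum_congr rfl fun y _ => hF0 x y hx, sum_ite_eq' univ x, if_pos (mem_univ x)]
    · rw [hdn1 x hx, sum_congr rfl fun y _ => hF1 x y (by omega), ← sum_filter, sum_const, nsmul_eq_mul]
      have h1 : univ.filter (fun y : Pc r => (y j : ℕ) ≤ x j) =
          Fintype.piFinset fun k : Fin 2 => univ.filter fun a : Fin (r k + 1) => k = i ∨ a ≤ x k := by
        ext y
        rw [mem_filter, Fintype.mem_piFinset]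
        constructor
        · intro h k
          rw [mem_filter]
          refine ⟨mem_univ _, ?_⟩
          have hk : k ∈ ({i, j} : Finset (Fin 2)) := by
            rw [← huniv]
            exact mem_univ k
          rw [mem_insert, mem_singleton] at hk
          rcases hk with rfl | rfl
          · exact Or.inl rfl
          · exact Or.inr h.2
        · intro h
          refine ⟨mem_univ _, ?_⟩
          have h2 := h j
          rw [mem_filter] at h2
          rcases h2.2 with h3 | h3
          · exact (hij h3.symm).elim
          · exact h3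
      have h2 : (univ.filter fun a : Fin (r i + 1) => i = i ∨ a ≤ x i).card = 2 := by
        rw [filter_true_of_mem fun a _ => Or.inl rfl, card_univ, Fintype.card_fin, hi]
      have h3 : (univ.filter fun a : Fin (r j + 1) => j = i ∨ a ≤ x j).card = (x j : ℕ) + 1 := by
        rw [← Fin.card_Iic (x j)]
        congr 1
        ext a
        rw [mem_filter, mem_Iic]
        constructor
        · rintro ⟨_, h | h⟩
          · exact (hij h.symm).elim
          · exact h
        · intro h
          exact ⟨mem_univ _, Or.inr h⟩
      rw [h1, Fintype.card_piFinset, huniv, prod_insert hij', prod_singleton, h2, h3]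
      push_cast
      ring
  · by_cases hx : (x i : ℕ) = 0
    · rw [hF0 x y hx, if_neg hyx]
      exact sum_nonneg fun z _ => hFn z y
    · have hx1 : (x i : ℕ) = 1 := (h01 x).resolve_left hx
      rw [hF1 x y hx]
      split_ifs with h
      · have h4 := sum_below x fun z => F z y
        rw [h4]
        rcases h.lt_or_eq with h5 | h5
        · refine le_trans ?_ (single_le_sum (f := fun k => F (dec x k) y) (fun k _ => hFn _ _)
            (mem_filter.2 ⟨mem_univ j, by omega⟩))
          have h6 : (dec x j) i = x i := by
            rw [dec, Function.update_of_ne hij]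
          have h7 : ((dec x j) j : ℕ) = (x j : ℕ) - 1 := by
            rw [dec, Function.update_self]
          show (1 / 2 : ℝ) ≤ F (dec x j) y
          rw [hF1 _ _ (by rw [h6]; exact hx), if_pos (by omega)]
        · refine le_trans ?_ (single_le_sum (f := fun k => F (dec x k) y) (fun k _ => hFn _ _)
            (mem_filter.2 ⟨mem_univ i, by omega⟩))
          have h6 : (dec x i) j = x j := by
            rw [dec, Function.update_of_ne hij.symm]
          have h7 : ((dec x i) i : ℕ) = (x i : ℕ) - 1 := by
            rw [dec, Function.update_self]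
          have h8 : y = dec x i := by
            have hyi : (y i : ℕ) = 0 := by
              rcases h01 y with h | h
              · exact h
              · exfalso
                apply hyx
                funext k
                have hk : k ∈ ({i, j} : Finset (Fin 2)) := by
                  rw [← huniv]
                  exact mem_univ k
                rw [mem_insert, mem_singleton] at hk
                rcases hk with rfl | rfl
                · exact Fin.ext (by omega)
                · exact Fin.ext h5
            funext k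
            have hk : k ∈ ({i, j} : Finset (Fin 2)) := by
              rw [← huniv]
              exact mem_univ k
            rw [mem_insert, mem_singleton] at hk
            rcases hk with rfl | rfl
            · exact Fin.ext (by omega)
            · rw [h6]
              exact Fin.ext h5
          show (1 / 2 : ℝ) ≤ F (dec x i) y
          rw [hF0 _ _ (by omega), if_pos h8]
          norm_num
      · exact sum_nonneg fun z _ => hFn z y
  · have hmax : univ.filter (fun x : Pc r => IsMax x) = {(⊤ : Pc r)} := by
      ext x
      rw [mem_filter, mem_singleton, isMax_iff_eq_top]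
      exact ⟨fun h => h.2, fun h => ⟨mem_univ _, h⟩⟩
    have hti : ((⊤ : Pc r) i : ℕ) = 1 := by
      show ((⊤ : Fin (r i + 1)) : ℕ) = 1
      rw [Fin.top_eq_last, Fin.val_last, hi]
    have htj : ((⊤ : Pc r) j : ℕ) = r j := by
      show ((⊤ : Fin (r j + 1)) : ℕ) = r j
      rw [Fin.top_eq_last, Fin.val_last]
    have hM : (numMaxChains (Pc r) : ℝ) = r j + 1 := by
      have h1 := Pool.Agent.H21.Hold.sum_MC (P := Pc r) fun _ => (1 : ℝ)
      rw [hmax, sum_singleton, sum_const, sum_const, Pool.Agent.H21.Hold.card_MC, Pool.Agent.H21.Hold.card_L,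
        nsmul_eq_mul, nsmul_eq_mul, mul_one, mul_one, hdn1 _ hti, htj] at h1
      exact h1
    have hP : (Fintype.card (Pc r) : ℝ) = 2 * (r j + 1) := by
      rw [Fintype.card_pi, huniv, prod_insert hij', prod_singleton, Fintype.card_fin, Fintype.card_fin, hi]
      push_cast
      ring
    rw [hmax, sum_singleton, hF1 _ _ (by omega), if_pos (by have := (y j).2; omega), hM, hP]
    have : (0 : ℝ) < r j + 1 := by positivity
    field_simp

theorem star_two {r : Fin 2 → ℕ} (h : ∃ i, r i = 1) : PropStar (Pc r) := by
  obtain ⟨i, hi⟩ := h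
  exact two_aux i (1 - i) (by omega) hi

end Pool.Agent.H74.PC
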