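import Pool.Agent.H74.PC.Hit
import Pool.Agent.H74.PC.Che
import Pool.Agent.H74.PC.Ari
import Pool.Agent.H74.PC.Ps1
import Pool.Agent.H74.PC.Ps2

/-! # [H74 PC MAIN] which products of chains have (∗) -/

set_option autoImplicit false

namespace Pool.Agent.H74.PC

open Finset Pool.Agent.H37.Star

variable {n : ℕ} {r : Fin n → ℕ}

theorem neg (i0 : Fin n) (hmax : ∀ i, r i ≤ r i0) (h2 : 2 ≤ r i0) (hR : 2 ≤ len' r i0) (hL : 2400 ≤ len r) :
    ¬ PropStar (Pc r) := by
  intro h
  have hlen := len_eq r i0
  rw [hlen] at hL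
  have hN : 0 < Fintype.card (Pc r) := Fintype.card_pos
  rcases Nat.lt_or_ge (r i0) (len' r i0) with hlt | hge
  · rcases Nat.lt_or_ge (r i0) 4 with h4 | h4
    · -- case C
      set R := len' r i0 with hRdef
      have h5 := star_ineq h i0 (9 * R / 20) (by omega)
      have h6 := cheb (r := r) i0 (9 * R / 20) (by omega)
      have hS : ∑ i ∈ univ.erase i0, r i ^ 2 ≤ r i0 * R := by
        rw [hRdef, len', Finset.mul_sum]
        refine Finset.sum_le_sum fun i _ => ?_
        rw [pow_two]
        exact Nat.mul_le_mul_right _ (hmax i)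
      set B := #{x : Pc r | rk' i0 x < 9 * R / 20} with hB
      have hBN : B ≤ Fintype.card (Pc r) := Finset.card_le_univ _
      have hcomp : #{x : Pc r | 9 * R / 20 ≤ rk' i0 x} = Fintype.card (Pc r) - B := by
        have h7 := Finset.card_filter_add_card_filter_not (s := (univ : Finset (Pc r))) (fun x => rk' i0 x < 9 * R / 20)
        rw [Finset.card_univ] at h7
        simp only [not_lt] at h7
        omega
      have h8 := caseC (r i0) R (Fintype.card (Pc r)) B _ h2 (by omega) hL hN hBN hS h6
      rw [hcomp, hlen] at h5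
      exact absurd h5 (not_le.2 h8)
    · -- case B
      have h5 := star_ineq h i0 ((len' r i0 + 1) / 2) (by omega)
      have h6 := half (r := r) i0
      have h7 := caseB (r i0) (len' r i0) h4 hlt hL
      rw [hlen] at h5
      set c := #{x : Pc r | (len' r i0 + 1) / 2 ≤ rk' i0 x}
      have h8 : Fintype.card (Pc r) * (r i0 + len' r i0).choose ((len' r i0 + 1) / 2) ≤
          Fintype.card (Pc r) * (2 * (r i0 + 1) * (len' r i0).choose ((len' r i0 + 1) / 2)) := by
        calc _ ≤ (2 * c) * (r i0 + len' r i0).choose ((len' r i0 + 1) / 2) := Nat.mul_le_mul_right _ h6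
          _ = 2 * (c * (r i0 + len' r i0).choose ((len' r i0 + 1) / 2)) := by ring
          _ ≤ 2 * ((r i0 + 1) * Fintype.card (Pc r) * (len' r i0).choose ((len' r i0 + 1) / 2)) :=
            Nat.mul_le_mul_left _ h5
          _ = _ := by ring
      have h9 := Nat.le_of_mul_le_mul_left h8 hN
      omega
  · -- case A
    have h5 := star_ineq h i0 (len' r i0) le_rfl
    rw [top i0, Nat.choose_self, mul_one, hlen] at h5
    have h6 := card_le (r := r) i0
    have h7 := caseA (r i0) (len' r i0) hR hge (by omega)
    have h8 := Nat.le_of_mul_le_mul_left h5 (Nat.succ_pos _)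
    omega

theorem main (n : ℕ) (r : Fin n → ℕ) (hr : ∀ i, 1 ≤ r i) (hL : 2400 ≤ ∑ i, r i) :
    PropStar ((i : Fin n) → Fin (r i + 1)) ↔ (∀ i, r i = 1) ∨ n = 1 ∨ (n = 2 ∧ ∃ i, r i = 1) := by
  constructor
  · intro h
    by_contra hcon
    push Not at hcon
    obtain ⟨⟨i1, hi1⟩, hn1, hn2⟩ := hcon
    have hne : (univ : Finset (Fin n)).Nonempty := ⟨i1, mem_univ _⟩
    obtain ⟨i0, -, hmax⟩ := Finset.exists_max_image univ r hne
    have h2 : 2 ≤ r i0 := by
      have h3 := hmax i1 (mem_univ _)
      have h4 := hr i1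
      omega
    have hR : 2 ≤ len' r i0 := by
      have h3 : (univ.erase i0).card ≤ len' r i0 := by
        rw [len', Finset.card_eq_sum_ones]
        exact Finset.sum_le_sum fun i _ => hr i
      rw [Finset.card_erase_of_mem (mem_univ _), Finset.card_univ, Fintype.card_fin] at h3
      have hn : n ≠ 0 := by rintro rfl; exact i0.elim0
      by_cases h4 : n = 2
      · subst h4
        have h5 := hn2 rfl
        have h6 : ∃ j, j ≠ i0 := by
          fin_cases i0
          · exact ⟨1, by decide⟩
          · exact ⟨0, by decide⟩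
        obtain ⟨j, hj⟩ := h6
        have h7 : r j ≤ len' r i0 :=
          Finset.single_le_sum (f := r) (fun i _ => Nat.zero_le _) (Finset.mem_erase.2 ⟨hj, mem_univ _⟩)
        have h8 := h5 j
        have h9 := hr j
        omega
      · omega
    exact neg i0 (fun i => hmax i (mem_univ _)) h2 hR hL h
  · rintro (h | h | ⟨h1, h2⟩)
    · exact star_boolean h
    · subst h
      exact star_chain
    · subst h1
      exact star_two h2

end Pool.Agent.H74.PC
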